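import Mathlib
import Pool.Agent.W307.QF.Stm

/-!
# QF-NCZ: no common zeros of binary forms modulo large primes
-/

set_option autoImplicit false

namespace Pool.Agent.W863.QF

open Pool.Agent.W307.QF

theorem sq_of {D x y : ℤ} (hy : y ≠ 0) (h : x ^ 2 = D * y ^ 2) : IsSquare D := by
  have h1 : y ^ 2 ∣ x ^ 2 := ⟨D, by rw [h]; ring⟩
  have h2 : y ∣ x := (Int.pow_dvd_pow_iff two_ne_zero).1 h1
  obtain ⟨c, rfl⟩ := h2
  refine ⟨c, ?_⟩
  have h3 : y ^ 2 * (c * c) = y ^ 2 * D := by linarith [h, mul_pow y c 2, sq c, mul_comm D (y ^ 2)]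
  exact (mul_left_cancel₀ (pow_ne_zero 2 hy) h3).symm

theorem avoid {ι : Type} [Fintype ι] (m : ι → ℤ) (hm : ∀ i, m i ≠ 0) :
    ∃ p0 : ℕ, ∀ p : ℕ, p0 < p → ∀ i, ¬ (p : ℤ) ∣ m i := by
  classical
  refine ⟨∑ i, (m i).natAbs, fun p hp i hd => ?_⟩
  have h1 : (m i).natAbs ≤ ∑ i, (m i).natAbs :=
    Finset.single_le_sum (f := fun i => (m i).natAbs) (fun _ _ => Nat.zero_le _)
      (Finset.mem_univ i)
  have h2 : p ∣ (m i).natAbs := Int.natCast_dvd.1 hd
  have h3 := Nat.le_of_dvd (Int.natAbs_pos.2 (hm i)) h2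
  omega

section
variable {p : ℕ} (hp : p.Prime)
include hp

theorem ll {α β α' β' u v : ℤ} (hv : ¬ (p : ℤ) ∣ v) (hm : ¬ (p : ℤ) ∣ (α * β' - α' * β))
    (h1 : (p : ℤ) ∣ α * u + β * v) (h2 : (p : ℤ) ∣ α' * u + β' * v) : False := by
  have hpp : Prime (p : ℤ) := Nat.prime_iff_prime_int.1 hp
  have h3 : (p : ℤ) ∣ (α * β' - α' * β) * v := by
    have e : (α * β' - α' * β) * v = α * (α' * u + β' * v) - α' * (α * u + β * v) := by ring
    rw [e]
    exact dvd_sub (Dvd.dvd.mul_left h2 _) (Dvd.dvd.mul_left h1 _)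
  rcases hpp.dvd_or_dvd h3 with h | h
  · exact hm h
  · exact hv h

theorem lq {α β a b c u v : ℤ} (hv : ¬ (p : ℤ) ∣ v)
    (hm : ¬ (p : ℤ) ∣ (a * β ^ 2 - b * α * β + c * α ^ 2))
    (h1 : (p : ℤ) ∣ α * u + β * v) (h2 : (p : ℤ) ∣ a * u ^ 2 + b * (u * v) + c * v ^ 2) : False := by
  have hpp : Prime (p : ℤ) := Nat.prime_iff_prime_int.1 hp
  have h3 : (p : ℤ) ∣ (a * β ^ 2 - b * α * β + c * α ^ 2) * v ^ 2 := by
    have e : (a * β ^ 2 - b * α * β + c * α ^ 2) * v ^ 2 =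
        α ^ 2 * (a * u ^ 2 + b * (u * v) + c * v ^ 2) -
          (α * u + β * v) * (a * (α * u - β * v) + b * α * v) := by ring
    rw [e]
    exact dvd_sub (Dvd.dvd.mul_left h2 _) (Dvd.dvd.mul_right h1 _)
  rcases hpp.dvd_or_dvd h3 with h | h
  · exact hm h
  · exact hv (hpp.dvd_of_dvd_pow h)

theorem qq {a b c a' b' c' u v : ℤ} (hv : ¬ (p : ℤ) ∣ v)
    (hm : ¬ (p : ℤ) ∣ ((a * c' - a' * c) ^ 2 - (a * b' - a' * b) * (b * c' - b' * c)))
    (h1 : (p : ℤ) ∣ a * u ^ 2 + b * (u * v) + c * v ^ 2)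
    (h2 : (p : ℤ) ∣ a' * u ^ 2 + b' * (u * v) + c' * v ^ 2) : False := by
  have hpp : Prime (p : ℤ) := Nat.prime_iff_prime_int.1 hp
  have h3 : (p : ℤ) ∣ (a * b' - a' * b) * u + (a * c' - a' * c) * v := by
    have h : (p : ℤ) ∣ v * ((a * b' - a' * b) * u + (a * c' - a' * c) * v) := by
      have e : v * ((a * b' - a' * b) * u + (a * c' - a' * c) * v) =
          a * (a' * u ^ 2 + b' * (u * v) + c' * v ^ 2) -
            a' * (a * u ^ 2 + b * (u * v) + c * v ^ 2) := by ring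
      rw [e]
      exact dvd_sub (Dvd.dvd.mul_left h2 _) (Dvd.dvd.mul_left h1 _)
    exact (hpp.dvd_or_dvd h).resolve_left hv
  have h4 : (p : ℤ) ∣ (a * c' - a' * c) * u + (b * c' - b' * c) * v := by
    have h : (p : ℤ) ∣ v * ((a * c' - a' * c) * u + (b * c' - b' * c) * v) := by
      have e : v * ((a * c' - a' * c) * u + (b * c' - b' * c) * v) =
          u * ((a * b' - a' * b) * u + (a * c' - a' * c) * v) -
            (b' * (a * u ^ 2 + b * (u * v) + c * v ^ 2) -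
              b * (a' * u ^ 2 + b' * (u * v) + c' * v ^ 2)) := by ring
      rw [e]
      exact dvd_sub (Dvd.dvd.mul_left h3 _)
        (dvd_sub (Dvd.dvd.mul_left h1 _) (Dvd.dvd.mul_left h2 _))
    exact (hpp.dvd_or_dvd h).resolve_left hv
  have h5 : (p : ℤ) ∣ ((a * c' - a' * c) ^ 2 - (a * b' - a' * b) * (b * c' - b' * c)) * v := by
    have e : ((a * c' - a' * c) ^ 2 - (a * b' - a' * b) * (b * c' - b' * c)) * v =
        (a * c' - a' * c) * ((a * b' - a' * b) * u + (a * c' - a' * c) * v) -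
          (a * b' - a' * b) * ((a * c' - a' * c) * u + (b * c' - b' * c) * v) := by ring
    rw [e]
    exact dvd_sub (Dvd.dvd.mul_left h3 _) (Dvd.dvd.mul_left h4 _)
  rcases hpp.dvd_or_dvd h5 with h | h
  · exact hm h
  · exact hv h

end

theorem lq_ne {α β a b c : ℤ} (hα : α ≠ 0) (hD : ¬ IsSquare (b ^ 2 - 4 * a * c)) :
    a * β ^ 2 - b * α * β + c * α ^ 2 ≠ 0 := by
  intro h
  apply hD
  apply sq_of (x := 2 * a * β - b * α) (y := α) hα
  linear_combination (4 * a) * h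

theorem a_ne {a b c : ℤ} (hD : ¬ IsSquare (b ^ 2 - 4 * a * c)) : a ≠ 0 := by
  rintro rfl
  exact hD ⟨b, by ring⟩

theorem qq_ne {a b c a' b' c' : ℤ} (hD : ¬ IsSquare (b ^ 2 - 4 * a * c))
    (hq : ¬ (a * b' = a' * b ∧ a * c' = a' * c ∧ b * c' = b' * c)) :
    (a * c' - a' * c) ^ 2 - (a * b' - a' * b) * (b * c' - b' * c) ≠ 0 := by
  intro h
  have ha : a ≠ 0 := a_ne hD
  have hP : a * b' - a' * b ≠ 0 := by
    intro hP
    rw [hP, zero_mul, sub_zero] at h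
    have hQ : a * c' - a' * c = 0 := pow_eq_zero_iff two_ne_zero |>.1 h
    apply hq
    refine ⟨by linarith, by linarith, ?_⟩
    have h1 : a * (b * c' - b' * c) = 0 := by
      linear_combination b * hQ - c * hP
    rcases mul_eq_zero.1 h1 with h2 | h2
    · exact absurd h2 ha
    · linarith
  apply hD
  apply sq_of (x := 2 * a * (a * c' - a' * c) - b * (a * b' - a' * b))
    (y := a * b' - a' * b) hP
  linear_combination (4 * a ^ 2) * h

theorem ncz : NCZ := by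
  classical
  intro J1 J2 _ _ _ _ α β qa qb qc hd hα
  have key : ∀ i j : J1 ⊕ J2, ∃ m : ℤ, m ≠ 0 ∧ (i ≠ j → ∀ p : ℕ, p.Prime → ¬ (p : ℤ) ∣ m →
      ∀ u v : ℤ, ¬ (p : ℤ) ∣ v →
        ¬ ((p : ℤ) ∣ fb α β qa qb qc u v i ∧ (p : ℤ) ∣ fb α β qa qb qc u v j)) := by
    intro i j
    by_cases hij : i = j
    · exact ⟨1, one_ne_zero, fun h => absurd hij h⟩
    rcases i with i | i <;> rcases j with j | j
    · have hij' : i ≠ j := fun h => hij (by rw [h])
      refine ⟨α i * β j - α j * β i, sub_ne_zero.2 (hd.lin i j hij'), fun _ p hp hm u v hv h => ?_⟩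
      exact ll hp hv hm h.1 h.2
    · refine ⟨qa j * β i ^ 2 - qb j * α i * β i + qc j * α i ^ 2,
        lq_ne (hα i) (hd.irr j), fun _ p hp hm u v hv h => ?_⟩
      exact lq hp hv hm h.1 h.2
    · refine ⟨qa i * β j ^ 2 - qb i * α j * β j + qc i * α j ^ 2,
        lq_ne (hα j) (hd.irr i), fun _ p hp hm u v hv h => ?_⟩
      exact lq hp hv hm h.2 h.1
    · have hij' : i ≠ j := fun h => hij (by rw [h])
      refine ⟨_, qq_ne (hd.irr i) (hd.quad i j hij'), fun _ p hp hm u v hv h => ?_⟩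
      exact qq hp hv hm h.1 h.2
  choose m hm0 hm using key
  obtain ⟨p1, h1⟩ := avoid (fun x : (J1 ⊕ J2) × (J1 ⊕ J2) => m x.1 x.2) (fun x => hm0 x.1 x.2)
  obtain ⟨p2, h2⟩ := avoid α hα
  obtain ⟨p3, h3⟩ := avoid qa (fun j => a_ne (hd.irr j))
  refine ⟨p1 + p2 + p3, fun p hp hlt => ⟨h2 p (by omega), h3 p (by omega), ?_⟩⟩
  intro u v hv i j hij
  exact hm i j hij p hp (h1 p (by omega) (i, j)) u v hv

end Pool.Agent.W863.QF
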